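import Mathlib

set_option autoImplicit false

namespace Pool.Agent.Results.MP_79dd7e_co.Nonagon

open Set MeasureTheory

/-- convex `m`-gon: compact convex, nonempty interior, exactly `m` extreme points -/
def IsPolygon (R : Set (ℝ × ℝ)) (m : ℕ) : Prop :=
  IsCompact R ∧ Convex ℝ R ∧ (interior R).Nonempty ∧ (R.extremePoints ℝ).encard = m

/-- the Euclidean product `⟨u, p - o⟩` -/
def form (o u p : ℝ × ℝ) : ℝ := u.1 * (p.1 - o.1) + u.2 * (p.2 - o.2)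

/-- unordered pairs of perpendicular lines that are quadrisections of `R` -/
def Quad (R : Set (ℝ × ℝ)) : Set (Set (Set (ℝ × ℝ))) :=
  {L | ∃ o ∈ interior R, ∃ u : ℝ × ℝ, u ≠ 0 ∧
    L = {{p | form o u p = 0}, {p | form o (-u.2, u.1) p = 0}} ∧
    ∀ s ∈ ({1, -1} : Set ℝ), ∀ t ∈ ({1, -1} : Set ℝ), volume (R ∩
      {p | 0 ≤ s * form o u p ∧ 0 ≤ t * form o (-u.2, u.1) p}) = volume R / 4}

lemma vol_aff (a b c d e f : ℝ) (h : |a * d - b * c| = 1) {S T : Set (ℝ × ℝ)}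
    (hST : ∀ x y, (x, y) ∈ T ↔ (a * x + b * y + e, c * x + d * y + f) ∈ S) :
    volume T = volume S := by
  have h1 := Measure.addHaar_preimage_linearMap (volume : Measure (ℝ × ℝ))
    (f := Matrix.toLin (Module.Basis.finTwoProd ℝ) (Module.Basis.finTwoProd ℝ) !![a, b; c, d])
    (by rw [LinearMap.det_toLin, Matrix.det_fin_two_of]; intro h0; simp [h0] at h)
    ((fun p => p + (e, f)) ⁻¹' S)
  rw [LinearMap.det_toLin, Matrix.det_fin_two_of, abs_inv, h, measure_preimage_add_right] at h1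
  simp only [inv_one, ENNReal.ofReal_one, one_mul] at h1
  rw [← h1]; congr 1; ext ⟨x, y⟩
  simp [hST, Matrix.toLin_finTwoProd_apply]

lemma half (S : Set (ℝ × ℝ)) (a b c d : ℝ) (h : |a * d - b * c| = 1) :
    volume (S ∩ {p | 0 ≤ a * p.1 + b * p.2}) + volume (S ∩ {p | a * p.1 + b * p.2 ≤ 0})
      = volume S := by
  have h0 : volume {p : ℝ × ℝ | a * p.1 + b * p.2 = 0} = 0 := by
    rw [vol_aff a b c d 0 0 h (S := {0} ×ˢ univ) (by simp), Measure.volume_eq_prod,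
      Measure.prod_prod]; simp
  rw [← measure_inter_add_diff S (t := {p | 0 ≤ a * p.1 + b * p.2}) (by measurability)]
  congr 1
  refine measure_congr ?_
  filter_upwards [measure_eq_zero_iff_ae_notMem.1 h0] with p hp
  exact propext ⟨fun h1 => ⟨h1.1, fun h2 => hp (le_antisymm h1.2 h2)⟩,
    fun h1 => ⟨h1.1, (le_total 0 (a * p.1 + b * p.2)).resolve_left h1.2⟩⟩

def Sq : Set (ℝ × ℝ) := {p | (-10 ≤ p.1 ∧ p.1 ≤ 10 ∧ -10 ≤ p.2 ∧ p.2 ≤ 10) ∧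
  -16 ≤ p.1 + p.2 ∧ p.1 - p.2 ≤ 16 ∧ p.2 - p.1 ≤ 16}

def R : Set (ℝ × ℝ) := Sq ∩ {p | p.1 + 7 * p.2 ≤ 72 ∧ 7 * p.1 + p.2 ≤ 72}

def O : Set (ℝ × ℝ) := Sq ∩ {p | p.1 + p.2 ≤ 16}

def Q (τ s t : ℝ) : Set (ℝ × ℝ) := {p | 0 ≤ s * (p.1 + τ * p.2) ∧ 0 ≤ t * (-τ * p.1 + p.2)}

lemma rot (τ s t : ℝ) : volume (O ∩ Q τ t (-s)) = volume (O ∩ Q τ s t) :=
  vol_aff 0 (-1) 1 0 0 0 (by simp) fun x y => by
    simp only [O, Sq, Q, mem_inter_iff, mem_setOf_eq]; grind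

lemma dart : volume {p : ℝ × ℝ | p.1 ≤ 10 ∧ p.2 ≤ 10 ∧ (72 < p.1 + 7 * p.2 ∨ 72 < 7 * p.1 + p.2)}
    = volume {p : ℝ × ℝ | p.1 ≤ 10 ∧ p.2 ≤ 10 ∧ 16 < p.1 + p.2} := by
  rw [← half _ 1 (-1) 0 1 (by simp), ← half {p : ℝ × ℝ | _ ∧ _ ∧ 16 < _} 1 (-1) 0 1 (by simp)]
  refine congrArg₂ _ (vol_aff 2 0 (3 / 2) (1 / 2) (-10) (-10) (by norm_num) fun x y => ?_)
    (vol_aff (1 / 2) (3 / 2) 0 2 (-10) (-10) (by norm_num) fun x y => ?_) <;>
  simp only [mem_inter_iff, mem_setOf_eq]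
  · exact ⟨fun ⟨⟨_, _, h⟩, _⟩ => by rcases h with h | h <;> refine ⟨⟨?_, ?_, ?_⟩, ?_⟩ <;> linarith,
      fun ⟨⟨_, _, _⟩, _⟩ => by refine ⟨⟨?_, ?_, .inr ?_⟩, ?_⟩ <;> linarith⟩
  · exact ⟨fun ⟨⟨_, _, h⟩, _⟩ => by rcases h with h | h <;> refine ⟨⟨?_, ?_, ?_⟩, ?_⟩ <;> linarith,
      fun ⟨⟨_, _, _⟩, _⟩ => by refine ⟨⟨?_, ?_, .inl ?_⟩, ?_⟩ <;> linarith⟩

lemma corner {τ : ℝ} (h0 : 0 < τ) (h1 : τ < 1 / 10) :
    volume (R ∩ Q τ 1 1) = volume (O ∩ Q τ 1 1) := by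
  have hq : ∀ x y : ℝ, 0 ≤ x → x ≤ 10 → 1 ≤ y → y ≤ 10 → x - y ≤ 16 → (x, y) ∈ Sq ∩ Q τ 1 1 :=
    fun x y _ _ _ _ _ => by
      simp only [Sq, Q, mem_inter_iff, mem_setOf_eq]
      refine ⟨⟨⟨?_, ?_, ?_, ?_⟩, ?_, ?_, ?_⟩, ?_, ?_⟩ <;> nlinarith
  have h4 : (Sq ∩ Q τ 1 1) \ {p | p.1 + 7 * p.2 ≤ 72 ∧ 7 * p.1 + p.2 ≤ 72}
      = {p | p.1 ≤ 10 ∧ p.2 ≤ 10 ∧ (72 < p.1 + 7 * p.2 ∨ 72 < 7 * p.1 + p.2)} := by
    ext ⟨x, y⟩
    simp only [mem_setOf_eq, mem_diff, not_and_or, not_le]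
    refine ⟨fun h => ⟨h.1.1.1.2.1, h.1.1.1.2.2.2, h.2⟩, fun ⟨_, _, h⟩ => ⟨?_, h⟩⟩
    rcases h with h | h <;> apply hq <;> linarith
  have h5 : (Sq ∩ Q τ 1 1) \ {p | p.1 + p.2 ≤ 16}
      = {p | p.1 ≤ 10 ∧ p.2 ≤ 10 ∧ 16 < p.1 + p.2} := by
    ext ⟨x, y⟩
    simp only [mem_setOf_eq, mem_diff, not_le]
    refine ⟨fun h => ⟨h.1.1.1.2.1, h.1.1.1.2.2.2, h.2⟩, fun ⟨_, _, h⟩ => ⟨?_, h⟩⟩
    apply hq <;> linarith
  have h7 : volume {p : ℝ × ℝ | p.1 ≤ 10 ∧ p.2 ≤ 10 ∧ 16 < p.1 + p.2} ≠ ⊤ :=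
    ((measure_mono (t := Icc 0 10 ×ˢ Icc 0 10) (by
      rintro ⟨x, y⟩ ⟨h, h', h''⟩
      refine ⟨⟨?_, h⟩, ?_, h'⟩ <;> linarith)).trans_lt
        (isCompact_Icc.prod isCompact_Icc).measure_lt_top).ne
  have h2 := measure_inter_add_diff (μ := volume) (Sq ∩ Q τ 1 1)
    (t := {p | p.1 + 7 * p.2 ≤ 72 ∧ 7 * p.1 + p.2 ≤ 72}) (by measurability)
  have h3 := measure_inter_add_diff (μ := volume) (Sq ∩ Q τ 1 1)
    (t := {p | p.1 + p.2 ≤ 16}) (by measurability)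
  rw [h4, dart, ← h3, h5] at h2
  rw [R, O, inter_right_comm, inter_right_comm Sq _ (Q τ 1 1)]
  exact (ENNReal.add_left_inj h7).1 h2

lemma other {τ s t : ℝ} (h0 : 0 < τ) (h1 : τ < 1 / 10) (h : s = -1 ∨ t = -1) :
    R ∩ Q τ s t = O ∩ Q τ s t := by
  ext ⟨x, y⟩
  have h2 : -10 ≤ y → -1 ≤ τ * y := fun _ => by nlinarith
  have h3 : x ≤ 10 → τ * x ≤ 1 := fun _ => by nlinarith
  simp only [R, O, Sq, Q, mem_inter_iff, mem_setOf_eq]
  rcases h with rfl | rfl <;> grind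

lemma quad {τ : ℝ} (h0 : 0 < τ) (h1 : τ < 1 / 10) : ∀ s ∈ ({1, -1} : Set ℝ),
    ∀ t ∈ ({1, -1} : Set ℝ), volume (R ∩ Q τ s t) = volume R / 4 := by
  have a1 := corner h0 h1
  have a2 := (congrArg volume (other (s := 1) h0 h1 (.inr rfl))).trans (rot τ 1 1)
  have a3 := (congrArg volume (other (t := -1) h0 h1 (.inl rfl))).trans
    ((rot τ 1 (-1)).trans (rot τ 1 1))
  have a4 := (congrArg volume (other (t := - -1) h0 h1 (.inl rfl))).trans ((rot τ (-1) (-1)).trans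
    ((rot τ 1 (-1)).trans (rot τ 1 1)))
  rw [neg_neg] at a4
  have b : volume R = 4 * volume (O ∩ Q τ 1 1) := by
    rw [← half R 1 τ 0 1 (by simp), ← half (R ∩ _) (-τ) 1 1 0 (by simp),
      ← half (R ∩ {p | _ ≤ 0}) (-τ) 1 1 0 (by simp), show (4 : ENNReal) = 1 + 1 + (1 + 1) by
        norm_num]
    simp only [add_mul, one_mul, inter_assoc]
    congr 2
    · exact Eq.trans (by congr 2; ext; simp [Q]) a1
    · exact Eq.trans (by congr 2; ext; simp only [Q, mem_inter_iff, mem_setOf_eq]; grind) a2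
    · exact Eq.trans (by congr 2; ext; simp only [Q, mem_inter_iff, mem_setOf_eq]; grind) a4
    · exact Eq.trans (by congr 2; ext; simp only [Q, mem_inter_iff, mem_setOf_eq]; grind) a3
  rw [b, mul_comm, ENNReal.mul_div_cancel_right (by simp) (by simp)]
  rintro s (rfl | rfl) t (rfl | rfl) <;> assumption

noncomputable def V : Finset (ℝ × ℝ) :=
  {(10, 2), (9, 9), (2, 10), (-6, 10), (-10, 6), (-10, -6), (-6, -10), (6, -10), (10, -6)}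

lemma hull : R ⊆ convexHull ℝ V := by
  rintro ⟨x, y⟩ ⟨⟨⟨h1, h2, h3, h4⟩, h5, h6, h7⟩, h8, h9⟩
  dsimp only at h1 h2 h3 h4 h5 h6 h7 h8 h9
  have seg : ∀ a b c d z : ℝ, (a, b) ∈ V → (c, d) ∈ V → a < c → a ≤ x → x ≤ c →
      (c - a) * (z - b) = (x - a) * (d - b) → (x, z) ∈ convexHull ℝ (V : Set (ℝ × ℝ)) := by
    intro a b c d z v1 v2 hac hax hxc hz
    have : 0 < c - a := by linarith
    refine segment_subset_convexHull v1 v2 ⟨(c - x) / (c - a), (x - a) / (c - a),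
      div_nonneg (by linarith) this.le, div_nonneg (by linarith) this.le, by field_simp; ring, ?_⟩
    ext <;> simp only [Prod.smul_mk, Prod.mk_add_mk, smul_eq_mul] <;> field_simp <;> linarith
  obtain ⟨l, hl, l1⟩ : ∃ l ≤ y, (x, l) ∈ convexHull ℝ (V : Set (ℝ × ℝ)) := by
    by_cases c1 : x ≤ -6
    · exact ⟨-16 - x, by linarith, seg (-10) (-6) (-6) (-10) _ (by simp [V]) (by simp [V])
        (by norm_num) h1 c1 (by ring)⟩
    by_cases c2 : x ≤ 6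
    · exact ⟨-10, h3, seg (-6) (-10) 6 (-10) _ (by simp [V]) (by simp [V])
        (by norm_num) (by linarith) c2 (by ring)⟩
    · exact ⟨x - 16, by linarith, seg 6 (-10) 10 (-6) _ (by simp [V]) (by simp [V])
        (by norm_num) (by linarith) h2 (by ring)⟩
  obtain ⟨u, hu, u1⟩ : ∃ u ≥ y, (x, u) ∈ convexHull ℝ (V : Set (ℝ × ℝ)) := by
    by_cases c1 : x ≤ -6
    · exact ⟨16 + x, by linarith, seg (-10) 6 (-6) 10 _ (by simp [V]) (by simp [V])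
        (by norm_num) h1 c1 (by ring)⟩
    by_cases c2 : x ≤ 2
    · exact ⟨10, h4, seg (-6) 10 2 10 _ (by simp [V]) (by simp [V])
        (by norm_num) (by linarith) c2 (by ring)⟩
    by_cases c3 : x ≤ 9
    · exact ⟨(72 - x) / 7, by linarith, seg 2 10 9 9 _ (by simp [V]) (by simp [V])
        (by norm_num) (by linarith) c3 (by ring)⟩
    · exact ⟨72 - 7 * x, by linarith, seg 9 9 10 2 _ (by simp [V]) (by simp [V])
        (by norm_num) (by linarith) h2 (by ring)⟩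
  obtain ⟨a, b, ha, hb, hab, h⟩ := (segment_eq_Icc (𝕜 := ℝ) (hl.trans hu)).ge ⟨hl, hu⟩
  refine (convex_convexHull ℝ _).segment_subset l1 u1 ⟨a, b, ha, hb, hab, Prod.ext ?_ h⟩
  simp [← add_mul, hab]

lemma convex_R : Convex ℝ R := by
  rintro ⟨x, y⟩ ⟨⟨⟨h1, h2, h3, h4⟩, h5, h6, h7⟩, h8, h9⟩ ⟨z, w⟩ ⟨⟨⟨k1, k2, k3, k4⟩, k5, k6, k7⟩,
    k8, k9⟩ a b ha hb hab
  simp only [R, Sq, mem_inter_iff, mem_setOf_eq, Prod.smul_mk, Prod.mk_add_mk, smul_eq_mul] at *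
  refine ⟨⟨⟨?_, ?_, ?_, ?_⟩, ?_, ?_, ?_⟩, ?_, ?_⟩ <;> nlinarith

lemma tight {a b p q c : ℝ} (ha : 0 < a) (hb : 0 < b) (hab : a + b = 1) (hp : p ≤ c) (hq : q ≤ c)
    (h : a * p + b * q = c) : p = c := by
  refine hp.antisymm (le_of_not_gt fun h1 => ?_)
  have : a * (c - p) + b * (c - q) = 0 := by linear_combination c * hab - h
  nlinarith [mul_pos ha (sub_pos.2 h1), mul_nonneg hb.le (sub_nonneg.2 hq)]

lemma ext_eq : R.extremePoints ℝ = V := by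
  have hV : (V : Set (ℝ × ℝ)) ⊆ R := by
    simp only [V, Finset.coe_insert, Finset.coe_singleton, insert_subset_iff, singleton_subset_iff,
      R, Sq, mem_inter_iff, mem_setOf_eq]
    norm_num
  refine subset_antisymm ?_ fun v hv => mem_extremePoints_iff_left.2 ⟨hV hv, ?_⟩
  · rw [subset_antisymm hull (convexHull_min hV convex_R)]
    exact extremePoints_convexHull_subset
  rintro ⟨x, y⟩ ⟨⟨⟨h1, h2, h3, h4⟩, h5, h6, h7⟩, h8, h9⟩ ⟨z, w⟩ ⟨⟨⟨k1, k2, k3, k4⟩, k5, k6, k7⟩,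
    k8, k9⟩ ⟨a, b, ha, hb, hab, rfl⟩
  dsimp only at *
  have t1 := tight ha hb hab (neg_le_neg h1) (neg_le_neg k1)
  have t2 := tight ha hb hab h2 k2
  have t3 := tight ha hb hab (neg_le_neg h3) (neg_le_neg k3)
  have t4 := tight ha hb hab h4 k4
  have t5 := tight ha hb hab (neg_le_neg h5) (neg_le_neg k5)
  have t6 := tight ha hb hab h6 k6
  have t7 := tight ha hb hab h7 k7
  have t8 := tight ha hb hab h8 k8
  have t9 := tight ha hb hab h9 k9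
  simp only [V, Finset.coe_insert, Finset.coe_singleton, mem_insert_iff, mem_singleton_iff,
    Prod.smul_mk, Prod.mk_add_mk, smul_eq_mul, Prod.mk.injEq] at hv ⊢
  grind

theorem result : ∃ R : Set (ℝ × ℝ), IsPolygon R (2 * 4 + 1) ∧ (Quad R).Infinite := by
  have h0 : (0 : ℝ × ℝ) ∈ interior R := mem_interior_iff_mem_nhds.2
    (Filter.mem_of_superset (prod_mem_nhds (Icc_mem_nhds (a := -1) (b := 1) (by simp) (by simp))
      (Icc_mem_nhds (a := -1) (b := 1) (by simp) (by simp))) fun p ⟨⟨_, _⟩, _, _⟩ => by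
      refine ⟨⟨⟨?_, ?_, ?_, ?_⟩, ?_, ?_, ?_⟩, ?_, ?_⟩ <;> linarith)
  refine ⟨R, ⟨?_, convex_R, ⟨0, h0⟩, ?_⟩, ?_⟩
  · refine ((isCompact_Icc (a := -10) (b := 10)).prod
      (isCompact_Icc (a := -10) (b := 10))).of_isClosed_subset ?_
      fun p hp => ⟨⟨hp.1.1.1, hp.1.1.2.1⟩, hp.1.1.2.2⟩
    simp only [R, Sq, setOf_and]
    repeat' apply IsClosed.inter
    all_goals exact isClosed_le (by fun_prop) (by fun_prop)
  · rw [ext_eq, encard_coe_eq_coe_finsetCard, V]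
    repeat rw [Finset.card_insert_of_notMem (by norm_num)]
    rfl
  refine infinite_of_injOn_mapsTo (f := fun τ : ℝ => {{p | form 0 (1, τ) p = 0},
    {p | form 0 (-τ, 1) p = 0}}) (s := Ioo 0 (1 / 10)) (fun a ha b hb h => ?_)
    (fun τ hτ => ⟨0, h0, (1, τ), by simp, rfl, ?_⟩) (Ioo_infinite (by norm_num))
  · rcases h.le (.inl rfl) with h1 | h1
    · simpa [form, neg_add_eq_zero] using h1.le (show (-a, 1) ∈ _ by simp [form])
    · have := h1.le (show (-a, 1) ∈ _ by simp [form])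
      simp [form] at this
      nlinarith [mul_pos ha.1 hb.1]
  · simpa [form, Q] using quad hτ.1 hτ.2

end Pool.Agent.Results.MP_79dd7e_co.Nonagon
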